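import Pool.Agent.Work.MP_db9399_all.Interface

/-!
# One random round as an extension of a partial colouring
-/

set_option autoImplicit false

namespace Pool.Agent.Work.MP_db9399_all

open Finset Classical

universe u

theorem stmt_STEP (hR : Stmt_RND.{u}) : Stmt_STEP.{u} := by
  intro om m hom hom1 hm
  obtain ⟨q, κ, Δ0, hq, hκ, H⟩ := hR om m hom hom1 hm
  refine ⟨κ, Δ0, hκ, ?_⟩
  intro V _ G Δ N t F c U Da Di _ _ Ma B Kl Mi hΔ0 hΔN hN2 hdeg hP hMa hMi hB hKl hcount
  obtain ⟨f, hf, hload, hdem⟩ := H G Δ N t (Da ⊕ Di) (Sum.elim Ma Mi)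
    (Sum.elim B (fun _ _ => range (q * N) \ range N)) (Sum.elim Kl (fun _ _ => ∅)) hΔ0 hΔN hN2 hdeg
    (by
      rintro (d | d)
      · exact (hMa d).1
      · exact (hMi d).1)
    (by
      rintro (d | d)
      · exact (hMa d).2.1
      · exact (hMi d).2.1)
    (by
      rintro (d | d) y hy
      · refine ⟨(hB d y hy).1.trans ?_, (hB d y hy).2⟩
        intro a ha
        have h1 := (Finset.mem_sdiff.1 ha).1
        have h2 := (Finset.mem_sdiff.1 h1).1
        rw [Finset.mem_range] at h2 ⊢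
        exact lt_of_lt_of_le h2 (Nat.le_mul_of_pos_left _ (by omega))
      · refine ⟨Finset.sdiff_subset, ?_⟩
        simp only [Sum.elim_inr]
        have hsub : range N ⊆ range (q * N) :=
          Finset.range_subset_range.2 (Nat.le_mul_of_pos_left _ (by omega))
        rw [Finset.card_sdiff_of_subset hsub, Finset.card_range, Finset.card_range]
        have h1 : N ≤ q * N - N := by
          have : 2 * N ≤ q * N := Nat.mul_le_mul_right _ hq
          omega
        have h2 : (N : ℝ) ≤ ((q * N - N : ℕ) : ℝ) := by exact_mod_cast h1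
        have h3 : om * N ≤ 1 * (N : ℝ) := mul_le_mul_of_nonneg_right hom1 (Nat.cast_nonneg _)
        linarith)
    (by
      rintro (d | d) y hy
      · exact (hKl d y hy).2
      · simp)
    (by
      intro w
      refine le_trans (le_of_eq ?_) (hcount w)
      have e : (univ.filter (fun d : Da ⊕ Di => w ∈ Sum.elim Ma Mi d ∨
          ∃ y ∈ Sum.elim Ma Mi d, w ∈ Sum.elim Kl (fun _ _ => ∅) d y)) =
          (univ.filter (fun d => w ∈ Ma d ∨ ∃ y ∈ Ma d, w ∈ Kl d y)).disjSum
            (univ.filter (fun d => w ∈ Mi d)) := by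
        ext d
        rcases d with d | d
        · simp
        · simp
      rw [e, Finset.card_disjSum])
  -- the new coloured vertices
  set hit : V → Prop := fun y => f y < N ∧ f y ∉ F y ∧ f y ∉ (nb G y \ U).image c ∧
    ∀ w ∈ nb G y, w ∈ U → f w ≠ f y with hhit
  set U' := U.filter (fun y => ¬ hit y) with hU'
  set c' : V → ℕ := fun x => if x ∈ U then f x else c x with hc'
  have hc1 : ∀ x, x ∈ U → c' x = f x := fun x hx => if_pos hx
  have hc2 : ∀ x, x ∉ U → c' x = c x := fun x hx => if_neg hx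
  have hnot : ∀ x, x ∉ U' → x ∈ U → hit x := by
    intro x hx hxU
    by_contra h
    exact hx (mem_filter.2 ⟨hxU, h⟩)
  refine ⟨c', U', Finset.filter_subset _ _, hc2, ⟨?_, ?_, ?_⟩, ?_, ?_, ?_⟩
  · intro x hx
    by_cases hxU : x ∈ U
    · rw [hc1 x hxU]; exact (hnot x hx hxU).1
    · rw [hc2 x hxU]; exact hP.lt x hxU
  · intro x hx
    by_cases hxU : x ∈ U
    · rw [hc1 x hxU]; exact (hnot x hx hxU).2.1
    · rw [hc2 x hxU]; exact hP.fb x hxU
  · intro x y hx hy hxy
    by_cases hxU : x ∈ U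
    · by_cases hyU : y ∈ U
      · rw [hc1 x hxU, hc1 y hyU]
        exact fun h => (hnot x hx hxU).2.2.2 y (mem_filter.2 ⟨mem_univ _, hxy⟩) hyU h.symm
      · rw [hc1 x hxU, hc2 y hyU]
        intro h
        exact (hnot x hx hxU).2.2.1 (mem_image.2 ⟨y, Finset.mem_sdiff.2
          ⟨mem_filter.2 ⟨mem_univ _, hxy⟩, hyU⟩, h.symm⟩)
    · by_cases hyU : y ∈ U
      · rw [hc2 x hxU, hc1 y hyU]
        intro h
        exact (hnot y hy hyU).2.2.1 (mem_image.2 ⟨x, Finset.mem_sdiff.2
          ⟨mem_filter.2 ⟨mem_univ _, hxy.symm⟩, hxU⟩, h⟩)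
      · rw [hc2 x hxU, hc2 y hyU]
        exact hP.pc x y hxU hyU hxy
  · intro v
    refine le_trans (Finset.card_le_card fun x hx => ?_) (hload v)
    have h := mem_filter.1 hx
    refine mem_filter.2 ⟨h.1, ?_⟩
    rw [← hc1 x h.2.1]
    exact h.2.2.2
  · intro d
    refine (hdem (Sum.inl d)).trans (Nat.cast_le.2 (Finset.card_le_card fun y hy => ?_))
    have h := mem_filter.1 hy
    have hyM : y ∈ Ma d := h.1
    have hyB : f y ∈ B d y := h.2.1
    have hyK : ∀ w ∈ Kl d y, f w = f y → N ≤ f y := h.2.2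
    have hyU : y ∈ U := (hMa d).2.2 hyM
    have hav := (hB d y hyM).1 hyB
    have h1 := Finset.mem_sdiff.1 hav
    have h2 := Finset.mem_sdiff.1 h1.1
    have h3 : f y < N := Finset.mem_range.1 h2.1
    have hK' : ∀ w ∈ Kl d y, f w ≠ f y := fun w hw e => by
      have := hyK w hw e
      omega
    have hhity : hit y := ⟨h3, h2.2, h1.2, fun w hw hwU =>
      hK' w ((hKl d y hyM).1 (Finset.mem_inter.2 ⟨hw, hwU⟩))⟩
    refine mem_filter.2 ⟨hyM, fun hy' => (mem_filter.1 hy').2 hhity, ?_, fun w hw hwU _ => ?_⟩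
    · rw [hc1 y hyU]; exact hyB
    · rw [hc1 y hyU, hc1 w hwU]; exact hK' w hw
  · intro d
    refine (hdem (Sum.inr d)).trans (Nat.cast_le.2 (Finset.card_le_card fun y hy => ?_))
    have h := mem_filter.1 hy
    have hyM : y ∈ Mi d := h.1
    have hyB : f y ∈ range (q * N) \ range N := h.2.1
    have hyU : y ∈ U := (hMi d).2.2 hyM
    refine Finset.mem_inter.2 ⟨hyM, mem_filter.2 ⟨hyU, fun hh => ?_⟩⟩
    exact (Finset.mem_sdiff.1 hyB).2 (Finset.mem_range.2 hh.1)

end Pool.Agent.Work.MP_db9399_all
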