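import Pool.Agent.Work.MP_db9399_all.Interface

/-!
# Greedy edge colouring with forbidden colours
-/

set_option autoImplicit false

namespace Pool.Agent.Work.MP_db9399_all

open Finset Classical

universe u

theorem GRE.aux {V : Type u} [Fintype V] (R : SimpleGraph V) (r m N : ℕ) (f : V → V → Finset ℕ)
    (hr : ∀ v, (nb R v).card ≤ r) (hf : ∀ v w, f v w = f w v) (hm : ∀ v w, (f v w).card ≤ m)
    (E : Finset (Sym2 V)) : (∀ a b, s(a, b) ∈ E → R.Adj a b) →
    ∃ t : V → V → ℕ, (∀ a b, t a b = t b a) ∧
      (∀ a b, s(a, b) ∈ E → N ≤ t a b ∧ t a b < N + 2 * r + m ∧ t a b ∉ f a b) ∧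
      ∀ a b b', s(a, b) ∈ E → s(a, b') ∈ E → t a b = t a b' → b = b' := by
  induction E using Finset.induction_on with
  | empty =>
    intro _
    exact ⟨fun _ _ => 0, fun _ _ => rfl, fun a b h => absurd h (Finset.notMem_empty _),
      fun a b b' h _ _ => absurd h (Finset.notMem_empty _)⟩
  | insert e E he ih =>
    intro hE
    obtain ⟨t, ht, ht1, ht2⟩ := ih fun a b h => hE a b (Finset.mem_insert_of_mem h)
    induction e using Sym2.ind with
    | _ v w =>
    have hvw : R.Adj v w := hE v w (Finset.mem_insert_self _ _)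
    -- the new colour
    set bad := f v w ∪ ((nb R v).erase w).image (t v) ∪ ((nb R w).erase v).image (t w) with hbad
    have hbadc : bad.card < 2 * r + m := by
      have h1 : bad.card ≤ (f v w).card + ((nb R v).erase w).card + ((nb R w).erase v).card :=
        (Finset.card_union_le _ _).trans (Nat.add_le_add ((Finset.card_union_le _ _).trans
          (Nat.add_le_add_left Finset.card_image_le _)) Finset.card_image_le)
      have hw : w ∈ nb R v := mem_filter.2 ⟨mem_univ _, hvw⟩
      have hv : v ∈ nb R w := mem_filter.2 ⟨mem_univ _, hvw.symm⟩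
      rw [Finset.card_erase_of_mem hw, Finset.card_erase_of_mem hv] at h1
      have h2 := hr v
      have h3 := hr w
      have h4 := hm v w
      have h5 := Finset.card_pos.2 ⟨w, hw⟩
      have h6 := Finset.card_pos.2 ⟨v, hv⟩
      omega
    obtain ⟨c, hc, hcb⟩ : ∃ c ∈ Finset.Ico N (N + 2 * r + m), c ∉ bad := by
      by_contra hcon
      push Not at hcon
      have := Finset.card_le_card (fun c hc => hcon c hc : Finset.Ico N (N + 2 * r + m) ⊆ bad)
      rw [Nat.card_Ico] at this
      omega
    rw [Finset.mem_Ico] at hc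
    have hcf : c ∉ f v w := fun h => hcb (Finset.mem_union_left _ (Finset.mem_union_left _ h))
    have hcv : ∀ b, b ≠ w → R.Adj v b → t v b ≠ c := fun b hb hvb h =>
      hcb (Finset.mem_union_left _ (Finset.mem_union_right _ (mem_image.2
        ⟨b, Finset.mem_erase.2 ⟨hb, mem_filter.2 ⟨mem_univ _, hvb⟩⟩, h⟩)))
    have hcw : ∀ b, b ≠ v → R.Adj w b → t w b ≠ c := fun b hb hwb h =>
      hcb (Finset.mem_union_right _ (mem_image.2
        ⟨b, Finset.mem_erase.2 ⟨hb, mem_filter.2 ⟨mem_univ _, hwb⟩⟩, h⟩))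
    have key : ∀ a b b', s(a, b) = s(v, w) → s(a, b') ≠ s(v, w) → s(a, b') ∈ E → t a b' ≠ c := by
      intro a b b' h1 h2 h3
      rcases Sym2.eq_iff.1 h1 with ⟨rfl, rfl⟩ | ⟨rfl, rfl⟩
      · exact hcv b' (fun h => h2 (by rw [h])) (hE a b' (Finset.mem_insert_of_mem h3))
      · exact hcw b' (fun h => h2 (by rw [h, Sym2.eq_swap])) (hE a b' (Finset.mem_insert_of_mem h3))
    refine ⟨fun a b => if s(a, b) = s(v, w) then c else t a b, fun a b => ?_, fun a b hab => ?_,
      fun a b b' hb hb' e => ?_⟩
    · simp only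
      rw [Sym2.eq_swap (a := a), ht a b]
    · simp only
      by_cases h : s(a, b) = s(v, w)
      · rw [if_pos h]
        refine ⟨hc.1, hc.2, ?_⟩
        rcases Sym2.eq_iff.1 h with ⟨rfl, rfl⟩ | ⟨rfl, rfl⟩
        · exact hcf
        · rw [hf]; exact hcf
      · rw [if_neg h]
        exact ht1 a b ((Finset.mem_insert.1 hab).resolve_left h)
    · simp only at e
      by_cases h : s(a, b) = s(v, w)
      · by_cases h' : s(a, b') = s(v, w)
        · exact Sym2.congr_right.1 (h.trans h'.symm)
        · rw [if_pos h, if_neg h'] at e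
          exact absurd e.symm (key a b b' h h' ((Finset.mem_insert.1 hb').resolve_left h'))
      · by_cases h' : s(a, b') = s(v, w)
        · rw [if_neg h, if_pos h'] at e
          exact absurd e (key a b' b h' h ((Finset.mem_insert.1 hb).resolve_left h))
        · rw [if_neg h, if_neg h'] at e
          exact ht2 a b b' ((Finset.mem_insert.1 hb).resolve_left h)
            ((Finset.mem_insert.1 hb').resolve_left h') e

theorem stmt_GRE : Stmt_GRE.{u} := by
  intro V _ R r m N f hr hf hm
  obtain ⟨t, ht, ht1, ht2⟩ := GRE.aux R r m N f hr hf hm R.edgeFinset fun a b h => by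
    rwa [SimpleGraph.mem_edgeFinset, SimpleGraph.mem_edgeSet] at h
  have hmem : ∀ a b, R.Adj a b → s(a, b) ∈ R.edgeFinset := fun a b h => by
    rwa [SimpleGraph.mem_edgeFinset, SimpleGraph.mem_edgeSet]
  refine ⟨t, ht, fun v w h => ht1 v w (hmem v w h), fun v b hb b' hb' e => ?_⟩
  exact ht2 v b b' (hmem v b (mem_filter.1 hb).2) (hmem v b' (mem_filter.1 hb').2) e

end Pool.Agent.Work.MP_db9399_all
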