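import Pool.Agent.Work.MP_db9399_all.Interface

/-!
# Vizing's theorem for simple graphs

Proof by induction on the vertices and, for one vertex, on the number of colours (Berge-Fournier,
Ehrenfeucht-Faber-Kierstead, Schrijver).
-/

set_option autoImplicit false
set_option linter.unusedSectionVars false

namespace Pool.Agent.Work.MP_db9399_all.VIZ

open Finset Classical

universe u

variable {V : Type u} [Fintype V]

/-- a proper edge colouring with colours in `K` -/
structure Col (K : Finset ℕ) (H : SimpleGraph V) (t : V → V → ℕ) : Prop where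
  symm : ∀ a b, t a b = t b a
  mem : ∀ a b, H.Adj a b → t a b ∈ K
  inj : ∀ a b b', H.Adj a b → H.Adj a b' → t a b = t a b' → b = b'

/-- the vertex `a` misses the colour `l` -/
def Miss (H : SimpleGraph V) (t : V → V → ℕ) (a : V) (l : ℕ) : Prop :=
  ∀ b, H.Adj a b → t a b ≠ l

/-- the graph of the edges of colour `i` or `j` -/
def two (H : SimpleGraph V) (t : V → V → ℕ) (hs : ∀ a b, t a b = t b a) (i j : ℕ) :
    SimpleGraph V where
  Adj a b := H.Adj a b ∧ (t a b = i ∨ t a b = j)
  symm := ⟨fun a b h => ⟨h.1.symm, by rw [hs b a]; exact h.2⟩⟩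
  loopless := ⟨fun a h => H.loopless.irrefl a h.1⟩

/-- the component of `u` -/
noncomputable def comp (G : SimpleGraph V) (u : V) : Finset V :=
  univ.filter (fun w => G.Reachable u w)

theorem mem_comp {G : SimpleGraph V} {u w : V} : w ∈ comp G u ↔ G.Reachable u w := by
  simp [comp]

theorem self_mem_comp (G : SimpleGraph V) (u : V) : u ∈ comp G u := mem_comp.2 (SimpleGraph.Reachable.refl u)

theorem comp_closed {G : SimpleGraph V} {u a b : V} (h : G.Adj a b) : a ∈ comp G u ↔ b ∈ comp G u := by
  rw [mem_comp, mem_comp]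
  exact ⟨fun h' => h'.trans h.reachable, fun h' => h'.trans h.symm.reachable⟩

/-- in a graph of maximal degree at most two a component has at most two vertices of degree at
most one -/
theorem comp_card (G : SimpleGraph V) (u : V) (A : Finset V) (hA : A ⊆ comp G u)
    (h2 : ∀ w, (nb G w).card ≤ 2) (h1 : ∀ w ∈ A, (nb G w).card ≤ 1) : A.card ≤ 2 := by
  set C := G.connectedComponentMk u with hC
  have hmem : ∀ w : V, w ∈ C.supp ↔ w ∈ comp G u := by
    intro w
    rw [SimpleGraph.ConnectedComponent.mem_supp_iff, mem_comp, hC,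
      SimpleGraph.ConnectedComponent.eq]
    exact ⟨fun h => h.symm, fun h => h.symm⟩
  have hcon : (G.induce C.supp).Connected := C.connected_toSimpleGraph
  have hle := hcon.card_vert_le_card_edgeSet_add_one
  have hsum := (G.induce C.supp).sum_degrees_eq_twice_card_edges
  have hcard : Nat.card C.supp = (comp G u).card := by
    rw [Nat.card_eq_fintype_card, ← Set.toFinset_card]
    congr 1
    ext w
    rw [Set.mem_toFinset, hmem]
  have hdeg : ∀ w : C.supp, (G.induce C.supp).degree w = (nb G (w : V)).card := by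
    intro w
    rw [← SimpleGraph.card_neighborFinset_eq_degree]
    rw [← Finset.card_map (Function.Embedding.subtype _)]
    congr 1
    ext b
    rw [Finset.mem_map]
    constructor
    · rintro ⟨x, hx, rfl⟩
      rw [SimpleGraph.mem_neighborFinset] at hx
      exact mem_filter.2 ⟨mem_univ _, hx⟩
    · intro hb
      have hb := (mem_filter.1 hb).2
      have hb' : b ∈ C.supp := by
        rw [hmem, ← comp_closed hb, ← hmem]
        exact w.2
      exact ⟨⟨b, hb'⟩, by rw [SimpleGraph.mem_neighborFinset]; exact hb, rfl⟩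
  have hsum2 : ∑ w : C.supp, (G.induce C.supp).degree w = ∑ w ∈ comp G u, (nb G w).card := by
    rw [Finset.sum_congr rfl fun w _ => hdeg w]
    rw [Finset.sum_subtype (comp G u) (fun w => (hmem w).symm) (fun w => (nb G w).card)]
  have hedge : Nat.card (G.induce C.supp).edgeSet = (G.induce C.supp).edgeFinset.card := by
    rw [Nat.card_eq_fintype_card, ← SimpleGraph.edgeFinset_card]
  have hbound : ∑ w ∈ comp G u, (nb G w).card + A.card ≤ 2 * (comp G u).card := by
    have e1 : ∑ w ∈ comp G u, ((nb G w).card + if w ∈ A then 1 else 0) ≤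
        ∑ w ∈ comp G u, 2 := by
      refine Finset.sum_le_sum fun w _ => ?_
      split_ifs with h
      · have := h1 w h; omega
      · have := h2 w; omega
    rw [Finset.sum_add_distrib, Finset.sum_const, smul_eq_mul] at e1
    have e2 : ∑ w ∈ comp G u, (if w ∈ A then 1 else 0) = A.card := by
      rw [Finset.sum_ite_mem, Finset.inter_eq_right.2 hA]
      simp
    omega
  rw [hsum2] at hsum
  omega

/-- exchange the colours `i` and `j` on `C` -/
noncomputable def swp (t : V → V → ℕ) (C : Finset V) (i j : ℕ) (a b : V) : ℕ :=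
  if a ∈ C ∧ b ∈ C then Equiv.swap i j (t a b) else t a b

/-- exchange the colours `i` and `j` in the lists on `C` -/
noncomputable def swM (M : V → Finset ℕ) (C : Finset V) (i j : ℕ) (a : V) : Finset ℕ :=
  if a ∈ C then (M a).image (Equiv.swap i j) else M a

theorem swap_mem {K : Finset ℕ} {i j : ℕ} (hi : i ∈ K) (hj : j ∈ K) {l : ℕ} (hl : l ∈ K) :
    Equiv.swap i j l ∈ K := by
  rcases Equiv.swap_apply_eq_iff.1 (rfl : Equiv.swap i j l = Equiv.swap i j l) with h
  by_cases h1 : l = i
  · rw [h1, Equiv.swap_apply_left]; exact hj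
  · by_cases h2 : l = j
    · rw [h2, Equiv.swap_apply_right]; exact hi
    · rw [Equiv.swap_apply_of_ne_of_ne h1 h2]; exact hl

theorem swp_of_mem {H : SimpleGraph V} {t : V → V → ℕ} {hs : ∀ a b, t a b = t b a} {C : Finset V}
    {i j : ℕ} (hC : ∀ a b, (two H t hs i j).Adj a b → (a ∈ C ↔ b ∈ C)) {a b : V} (ha : a ∈ C)
    (hab : H.Adj a b) : swp t C i j a b = Equiv.swap i j (t a b) := by
  unfold swp
  split_ifs with h
  · rfl
  · have hb : b ∉ C := fun hb => h ⟨ha, hb⟩
    have h1 : t a b ≠ i := fun e => hb ((hC a b ⟨hab, Or.inl e⟩).1 ha)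
    have h2 : t a b ≠ j := fun e => hb ((hC a b ⟨hab, Or.inr e⟩).1 ha)
    rw [Equiv.swap_apply_of_ne_of_ne h1 h2]

theorem swp_of_notMem {t : V → V → ℕ} {C : Finset V} {i j : ℕ} {a b : V} (ha : a ∉ C) :
    swp t C i j a b = t a b := by
  unfold swp
  rw [if_neg (fun h => ha h.1)]

theorem swp_col {K : Finset ℕ} {H : SimpleGraph V} {t : V → V → ℕ} (ht : Col K H t) {C : Finset V}
    {i j : ℕ} (hi : i ∈ K) (hj : j ∈ K)
    (hC : ∀ a b, (two H t ht.symm i j).Adj a b → (a ∈ C ↔ b ∈ C)) :
    Col K H (swp t C i j) := by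
  refine ⟨fun a b => ?_, fun a b hab => ?_, fun a b b' hb hb' e => ?_⟩
  · unfold swp
    rw [ht.symm a b]
    by_cases h : a ∈ C ∧ b ∈ C
    · rw [if_pos h, if_pos h.symm]
    · rw [if_neg h, if_neg (fun h' => h h'.symm)]
  · by_cases ha : a ∈ C
    · rw [swp_of_mem hC ha hab]
      exact swap_mem hi hj (ht.mem a b hab)
    · rw [swp_of_notMem ha]
      exact ht.mem a b hab
  · by_cases ha : a ∈ C
    · rw [swp_of_mem hC ha hb, swp_of_mem hC ha hb'] at e
      exact ht.inj a b b' hb hb' ((Equiv.swap i j).injective e)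
    · rw [swp_of_notMem ha, swp_of_notMem ha] at e
      exact ht.inj a b b' hb hb' e

theorem swM_miss {K : Finset ℕ} {H : SimpleGraph V} {t : V → V → ℕ} (ht : Col K H t)
    {C : Finset V} {i j : ℕ} (hC : ∀ a b, (two H t ht.symm i j).Adj a b → (a ∈ C ↔ b ∈ C))
    {M : V → Finset ℕ} {a : V} (h : ∀ l ∈ M a, Miss H t a l) :
    ∀ l ∈ swM M C i j a, Miss H (swp t C i j) a l := by
  intro l hl b hab e
  unfold swM at hl
  by_cases ha : a ∈ C
  · rw [if_pos ha] at hl
    obtain ⟨m, hm, rfl⟩ := mem_image.1 hl
    rw [swp_of_mem hC ha hab] at e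
    exact h m hm b hab ((Equiv.swap i j).injective e)
  · rw [if_neg ha] at hl
    rw [swp_of_notMem ha] at e
    exact h l hl b hab e

theorem swM_card {M : V → Finset ℕ} {C : Finset V} {i j : ℕ} (a : V) :
    (swM M C i j a).card = (M a).card := by
  unfold swM
  split_ifs
  · exact card_image_of_injective _ (Equiv.swap i j).injective
  · rfl

theorem swM_subset {K : Finset ℕ} {M : V → Finset ℕ} {C : Finset V} {i j : ℕ} (hi : i ∈ K)
    (hj : j ∈ K) {a : V} (h : M a ⊆ K) : swM M C i j a ⊆ K := by
  unfold swM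
  split_ifs
  · intro l hl
    obtain ⟨m, hm, rfl⟩ := mem_image.1 hl
    exact swap_mem hi hj (h hm)
  · exact h

theorem mem_swM {M : V → Finset ℕ} {C : Finset V} {i j l : ℕ} {a : V} :
    l ∈ swM M C i j a ↔ (a ∈ C ∧ Equiv.swap i j l ∈ M a) ∨ (a ∉ C ∧ l ∈ M a) := by
  unfold swM
  by_cases ha : a ∈ C
  · rw [if_pos ha, mem_image]
    constructor
    · rintro ⟨m, hm, rfl⟩
      left
      rw [Equiv.swap_apply_self]
      exact ⟨ha, hm⟩
    · rintro (⟨_, h⟩ | ⟨h, _⟩)
      · exact ⟨_, h, Equiv.swap_apply_self _ _ _⟩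
      · exact absurd ha h
  · rw [if_neg ha]
    constructor
    · intro h; right; exact ⟨ha, h⟩
    · rintro (⟨h, _⟩ | ⟨_, h⟩)
      · exact absurd h ha
      · exact h

/-- vertices of `S` whose list contains `l` -/
noncomputable def XX (S : Finset V) (M : V → Finset ℕ) (l : ℕ) : Finset V :=
  S.filter (fun u => l ∈ M u)

/-- the number of colours which occur in no list decreases -/
theorem step (K : Finset ℕ) (H : SimpleGraph V) (S : Finset V) (u₀ : V) (hu₀ : u₀ ∈ S)
    (hSK : S.card ≤ K.card) (n : ℕ) :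
    ∀ (t : V → V → ℕ) (M : V → Finset ℕ), Col K H t → (∀ u ∈ S, M u ⊆ K) →
      (∀ u ∈ S, ∀ l ∈ M u, Miss H t u l) → (∀ u ∈ S, (M u).card = if u = u₀ then 1 else 2) →
      (K.filter (fun l => XX S M l = ∅)).card ≤ n →
      ∃ (t' : V → V → ℕ) (M' : V → Finset ℕ) (l : ℕ), Col K H t' ∧ (∀ u ∈ S, M' u ⊆ K) ∧
        (∀ u ∈ S, ∀ l ∈ M' u, Miss H t' u l) ∧ (∀ u ∈ S, (M' u).card = if u = u₀ then 1 else 2) ∧
        l ∈ K ∧ (XX S M' l).card = 1 := by
  induction n with
  | zero =>
    intro t M ht hMK hM hcard hn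
    refine ⟨t, M, ?_⟩
    -- sum of the sizes
    have hsum : ∑ l ∈ K, (XX S M l).card + 1 = 2 * S.card := by
      have e1 : ∑ l ∈ K, (XX S M l).card = ∑ u ∈ S, (M u).card := by
        have h1 : ∀ l ∈ K, (XX S M l).card = ∑ u ∈ S, if l ∈ M u then 1 else 0 := fun l _ => by
          rw [XX, card_filter]
        rw [Finset.sum_congr rfl h1, Finset.sum_comm]
        refine Finset.sum_congr rfl fun u hu => ?_
        rw [← card_filter, Finset.filter_mem_eq_inter, Finset.inter_eq_right.2 (hMK u hu)]
      rw [e1, Finset.sum_congr rfl hcard, ← Finset.add_sum_erase _ _ hu₀, if_pos rfl]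
      have e2 : ∑ u ∈ S.erase u₀, (if u = u₀ then 1 else 2) = ∑ u ∈ S.erase u₀, 2 :=
        Finset.sum_congr rfl fun u hu => if_neg (Finset.ne_of_mem_erase hu)
      rw [e2, Finset.sum_const, Finset.card_erase_of_mem hu₀, smul_eq_mul]
      have := Finset.card_pos.2 ⟨u₀, hu₀⟩
      omega
    by_contra hcon
    have hne : ∀ l ∈ K, (XX S M l).card ≠ 1 := fun l hl h => hcon ⟨l, ht, hMK, hM, hcard, hl, h⟩
    have hge : ∀ l ∈ K, 2 ≤ (XX S M l).card := by
      intro l hl
      have h0 : (XX S M l).card ≠ 0 := by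
        intro h
        have h1 : l ∈ K.filter (fun l => XX S M l = ∅) := mem_filter.2 ⟨hl, card_eq_zero.1 h⟩
        have := card_pos.2 ⟨l, h1⟩
        omega
      have := hne l hl
      omega
    have := Finset.sum_le_sum hge
    rw [Finset.sum_const, smul_eq_mul] at this
    omega
  | succ n ih =>
    intro t M ht hMK hM hcard hn
    by_contra hcon
    have hne : ∀ l ∈ K, (XX S M l).card ≠ 1 := fun l hl h =>
      hcon ⟨t, M, l, ht, hMK, hM, hcard, hl, h⟩
    have hsum : ∑ l ∈ K, (XX S M l).card + 1 = 2 * S.card := by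
      have e1 : ∑ l ∈ K, (XX S M l).card = ∑ u ∈ S, (M u).card := by
        have h1 : ∀ l ∈ K, (XX S M l).card = ∑ u ∈ S, if l ∈ M u then 1 else 0 := fun l _ => by
          rw [XX, card_filter]
        rw [Finset.sum_congr rfl h1, Finset.sum_comm]
        refine Finset.sum_congr rfl fun u hu => ?_
        rw [← card_filter, Finset.filter_mem_eq_inter, Finset.inter_eq_right.2 (hMK u hu)]
      rw [e1, Finset.sum_congr rfl hcard, ← Finset.add_sum_erase _ _ hu₀, if_pos rfl]
      have e2 : ∑ u ∈ S.erase u₀, (if u = u₀ then 1 else 2) = ∑ u ∈ S.erase u₀, 2 :=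
        Finset.sum_congr rfl fun u hu => if_neg (Finset.ne_of_mem_erase hu)
      rw [e2, Finset.sum_const, Finset.card_erase_of_mem hu₀, smul_eq_mul]
      have := Finset.card_pos.2 ⟨u₀, hu₀⟩
      omega
    -- a colour of an odd number of lists
    obtain ⟨i, hi, hodd⟩ : ∃ i ∈ K, Odd (XX S M i).card := by
      by_contra hall
      have h1 : ∀ l ∈ K, Even (XX S M l).card := fun l hl => by
        by_contra h
        exact hall ⟨l, hl, Nat.not_even_iff_odd.1 h⟩
      have h2 : Even (∑ l ∈ K, (XX S M l).card) := Finset.even_sum _ h1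
      obtain ⟨r, hr⟩ := h2
      omega
    have hi3 : 3 ≤ (XX S M i).card := by
      have := hne i hi
      obtain ⟨r, hr⟩ := hodd
      omega
    -- a colour of no list
    obtain ⟨j, hj, hj0⟩ : ∃ j ∈ K, (XX S M j).card = 0 := by
      by_contra hall
      have hge : ∀ l ∈ K, 2 ≤ (XX S M l).card := by
        intro l hl
        have h0 : (XX S M l).card ≠ 0 := fun h => hall ⟨l, hl, h⟩
        have := hne l hl
        omega
      have := Finset.sum_le_sum hge
      rw [Finset.sum_const, smul_eq_mul] at this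
      omega
    have hij : i ≠ j := by
      rintro rfl
      omega
    obtain ⟨u, hu⟩ := Finset.card_pos.1 (show 0 < (XX S M i).card by omega)
    set G := two H t ht.symm i j with hG
    set C := comp G u with hCdef
    have hC : ∀ a b, G.Adj a b → (a ∈ C ↔ b ∈ C) := fun a b h => comp_closed h
    set A := (XX S M i) ∩ C with hAdef
    have hdeg2 : ∀ w, (nb G w).card ≤ 2 := by
      intro w
      have h1 : (nb G w).card ≤ ({i, j} : Finset ℕ).card := by
        refine Finset.card_le_card_of_injOn (t w) (fun b hb => ?_) (fun b hb b' hb' e => ?_)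
        · have := (mem_filter.1 hb).2.2
          simp only [Finset.coe_insert, Finset.coe_singleton, Set.mem_insert_iff,
            Set.mem_singleton_iff]
          exact this
        · exact ht.inj w b b' (mem_filter.1 hb).2.1 (mem_filter.1 hb').2.1 e
      exact h1.trans (Finset.card_insert_le _ _)
    have hA2 : A.card ≤ 2 := by
      refine comp_card G u A (Finset.inter_subset_right) hdeg2 fun w hw => ?_
      have hw1 := (Finset.mem_inter.1 hw).1
      have hw2 := mem_filter.1 hw1
      have hmiss : Miss H t w i := hM w hw2.1 i hw2.2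
      have h1 : (nb G w).card ≤ ({j} : Finset ℕ).card := by
        refine Finset.card_le_card_of_injOn (t w) (fun b hb => ?_) (fun b hb b' hb' e => ?_)
        · have h3 := (mem_filter.1 hb).2
          simp only [Finset.coe_singleton, Set.mem_singleton_iff]
          exact h3.2.resolve_left (hmiss b h3.1)
        · exact ht.inj w b b' (mem_filter.1 hb).2.1 (mem_filter.1 hb').2.1 e
      simpa using h1
    have hA1 : 1 ≤ A.card := Finset.card_pos.2 ⟨u, Finset.mem_inter.2 ⟨hu, self_mem_comp G u⟩⟩
    have hj0' : ∀ w ∈ S, j ∉ M w := by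
      intro w hw h
      have : w ∈ XX S M j := mem_filter.2 ⟨hw, h⟩
      rw [card_eq_zero.1 hj0] at this
      exact absurd this (Finset.notMem_empty _)
    set M' := swM M C i j with hM'
    have hXi : XX S M' i = XX S M i \ C := by
      ext w
      rw [XX, mem_filter, hM', mem_swM, Equiv.swap_apply_left, Finset.mem_sdiff, XX, mem_filter]
      constructor
      · rintro ⟨hw, ⟨_, h⟩ | ⟨h1, h2⟩⟩
        · exact absurd h (hj0' w hw)
        · exact ⟨⟨hw, h2⟩, h1⟩
      · rintro ⟨⟨hw, h2⟩, h1⟩
        exact ⟨hw, Or.inr ⟨h1, h2⟩⟩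
    have hXj : XX S M' j = A := by
      ext w
      rw [XX, mem_filter, hM', mem_swM, Equiv.swap_apply_right, hAdef, Finset.mem_inter, XX,
        mem_filter]
      constructor
      · rintro ⟨hw, ⟨h1, h⟩ | ⟨h1, h2⟩⟩
        · exact ⟨⟨hw, h⟩, h1⟩
        · exact absurd h2 (hj0' w hw)
      · rintro ⟨⟨hw, h2⟩, h1⟩
        exact ⟨hw, Or.inl ⟨h1, h2⟩⟩
    have hXl : ∀ l, l ≠ i → l ≠ j → XX S M' l = XX S M l := by
      intro l h1 h2
      ext w
      rw [XX, mem_filter, hM', mem_swM, Equiv.swap_apply_of_ne_of_ne h1 h2, XX, mem_filter]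
      tauto
    have hXic : XX S M' i ≠ ∅ := by
      rw [hXi]
      intro h
      have h1 := Finset.card_sdiff_add_card_inter (XX S M i) C
      rw [h, Finset.card_empty, ← hAdef] at h1
      omega
    have hXjc : XX S M' j ≠ ∅ := by
      rw [hXj]
      exact Finset.nonempty_iff_ne_empty.1 (Finset.card_pos.1 hA1)
    have hlt : (K.filter (fun l => XX S M' l = ∅)).card ≤ n := by
      have hsub : K.filter (fun l => XX S M' l = ∅) ⊆ (K.filter (fun l => XX S M l = ∅)).erase j := by
        intro l hl
        have h1 := mem_filter.1 hl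
        have hli : l ≠ i := by
          rintro rfl
          exact hXic h1.2
        have hlj : l ≠ j := by
          rintro rfl
          exact hXjc h1.2
        rw [Finset.mem_erase, mem_filter]
        refine ⟨hlj, h1.1, ?_⟩
        rw [← hXl l hli hlj]
        exact h1.2
      have h1 := Finset.card_le_card hsub
      have h2 : j ∈ K.filter (fun l => XX S M l = ∅) := mem_filter.2 ⟨hj, card_eq_zero.1 hj0⟩
      rw [Finset.card_erase_of_mem h2] at h1
      omega
    exact hcon (ih (swp t C i j) M' (swp_col ht hi hj hC) (fun w hw => swM_subset hi hj (hMK w hw))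
      (fun w hw => swM_miss ht hC (hM w hw)) (fun w hw => by rw [hM', swM_card]; exact hcard w hw)
      hlt)

/-- the colours of the edges at one vertex -/
theorem main (k : ℕ) : ∀ (K : Finset ℕ), K.card = k → ∀ (H : SimpleGraph V) (t : V → V → ℕ)
    (S : Finset V) (M : V → Finset ℕ) (u₀ : V), Col K H t → S.card ≤ k → (∀ u ∈ S, M u ⊆ K) →
    (∀ u ∈ S, ∀ l ∈ M u, Miss H t u l) → (∀ u ∈ S, 1 ≤ (M u).card) →
    (∀ u ∈ S, u ≠ u₀ → 2 ≤ (M u).card) →
    ∃ (t' : V → V → ℕ) (s : V → ℕ), Col K H t' ∧ Set.InjOn s (S : Set V) ∧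
      ∀ u ∈ S, s u ∈ K ∧ Miss H t' u (s u) := by
  induction k with
  | zero =>
    intro K hK H t S M u₀ ht hS _ _ _ _
    have hS0 : S = ∅ := Finset.card_eq_zero.1 (by omega)
    subst hS0
    exact ⟨t, fun _ => 0, ht, by simp, by simp⟩
  | succ k ih =>
    intro K hK H t S M u₀ ht hS hMK hM h1 h2
    rcases S.eq_empty_or_nonempty with rfl | hne
    · exact ⟨t, fun _ => 0, ht, by simp, by simp⟩
    -- choose `u₁ ∈ S` such that all others have two colours
    obtain ⟨u₁, hu₁, h2'⟩ : ∃ u₁ ∈ S, ∀ u ∈ S, u ≠ u₁ → 2 ≤ (M u).card := by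
      by_cases h : u₀ ∈ S
      · exact ⟨u₀, h, h2⟩
      · obtain ⟨u₁, hu₁⟩ := hne
        exact ⟨u₁, hu₁, fun u hu _ => h2 u hu (fun e => h (e ▸ hu))⟩
    have hsub : ∀ u, ∃ N : Finset ℕ, u ∈ S → N ⊆ M u ∧ N.card = if u = u₁ then 1 else 2 := by
      intro u
      by_cases hu : u ∈ S
      · have hle : (if u = u₁ then 1 else 2) ≤ (M u).card := by
          split_ifs with h
          · exact h1 u hu
          · exact h2' u hu h
        obtain ⟨N, hN, hN'⟩ := Finset.exists_subset_card_eq hle
        exact ⟨N, fun _ => ⟨hN, hN'⟩⟩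
      · exact ⟨∅, fun h => absurd h hu⟩
    choose N hN using hsub
    obtain ⟨t', M', l, ht', hMK', hM', hcard', hl, hone⟩ := step K H S u₁ hu₁ (by omega) _ t N ht
      (fun u hu => (hN u hu).1.trans (hMK u hu)) (fun u hu l hl => hM u hu l ((hN u hu).1 hl))
      (fun u hu => (hN u hu).2) le_rfl
    obtain ⟨u, hu⟩ := Finset.card_eq_one.1 hone
    have huX : u ∈ XX S M' l := by rw [hu]; exact Finset.mem_singleton_self u
    have huS : u ∈ S := (mem_filter.1 huX).1
    have hlu : l ∈ M' u := (mem_filter.1 huX).2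
    have hlother : ∀ w ∈ S, w ≠ u → l ∉ M' w := by
      intro w hw hwu hlw
      have : w ∈ XX S M' l := mem_filter.2 ⟨hw, hlw⟩
      rw [hu, Finset.mem_singleton] at this
      exact hwu this
    -- remove the colour `l`
    let H' : SimpleGraph V :=
      { Adj := fun a b => H.Adj a b ∧ t' a b ≠ l
        symm := ⟨fun a b h => ⟨h.1.symm, by rw [ht'.symm b a]; exact h.2⟩⟩
        loopless := ⟨fun a h => H.loopless.irrefl a h.1⟩ }
    have hcol : Col (K.erase l) H' t' := by
      refine ⟨ht'.symm, fun a b hab => ?_, fun a b b' hb hb' e => ht'.inj a b b' hb.1 hb'.1 e⟩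
      rw [Finset.mem_erase]
      exact ⟨hab.2, ht'.mem a b hab.1⟩
    obtain ⟨t₂, s, ht₂, hsinj, hs⟩ := ih (K.erase l) (by rw [Finset.card_erase_of_mem hl]; omega)
      H' t' (S.erase u) M' u₁ hcol (by rw [Finset.card_erase_of_mem huS]; omega)
      (fun w hw => by
        rw [Finset.mem_erase] at hw
        intro m hm
        rw [Finset.mem_erase]
        refine ⟨?_, hMK' w hw.2 hm⟩
        rintro rfl
        exact hlother w hw.2 hw.1 hm)
      (fun w hw m hm b hab => hM' w (Finset.mem_of_mem_erase hw) m hm b hab.1)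
      (fun w hw => by rw [hcard' w (Finset.mem_of_mem_erase hw)]; split_ifs <;> omega)
      (fun w hw hne => by rw [hcard' w (Finset.mem_of_mem_erase hw), if_neg hne])
    refine ⟨fun a b => if t' a b = l then l else t₂ a b, fun w => if w = u then l else s w,
      ⟨fun a b => ?_, fun a b hab => ?_, fun a b b' hb hb' e => ?_⟩, ?_, fun w hw => ⟨?_, ?_⟩⟩
    · rw [ht'.symm a b, ht₂.symm a b]
    · split_ifs with h
      · exact hl
      · exact Finset.mem_of_mem_erase (ht₂.mem a b ⟨hab, h⟩)
    · by_cases hx : t' a b = l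
      · by_cases hy : t' a b' = l
        · exact ht'.inj a b b' hb hb' (hx.trans hy.symm)
        · rw [if_pos hx, if_neg hy] at e
          have := ht₂.mem a b' ⟨hb', hy⟩
          rw [← e] at this
          exact absurd this (Finset.notMem_erase _ _)
      · by_cases hy : t' a b' = l
        · rw [if_neg hx, if_pos hy] at e
          have := ht₂.mem a b ⟨hb, hx⟩
          rw [e] at this
          exact absurd this (Finset.notMem_erase _ _)
        · rw [if_neg hx, if_neg hy] at e
          exact ht₂.inj a b b' ⟨hb, hx⟩ ⟨hb', hy⟩ e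
    · intro x hx y hy e
      simp only at e
      by_cases hxu : x = u
      · by_cases hyu : y = u
        · rw [hxu, hyu]
        · rw [if_pos hxu, if_neg hyu] at e
          have := (hs y (Finset.mem_erase.2 ⟨hyu, hy⟩)).1
          rw [← e] at this
          exact absurd this (Finset.notMem_erase _ _)
      · by_cases hyu : y = u
        · rw [if_neg hxu, if_pos hyu] at e
          have := (hs x (Finset.mem_erase.2 ⟨hxu, hx⟩)).1
          rw [e] at this
          exact absurd this (Finset.notMem_erase _ _)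
        · rw [if_neg hxu, if_neg hyu] at e
          exact hsinj (Finset.mem_coe.2 (Finset.mem_erase.2 ⟨hxu, hx⟩))
            (Finset.mem_coe.2 (Finset.mem_erase.2 ⟨hyu, hy⟩)) e
    · simp only
      split_ifs with h
      · exact hl
      · exact Finset.mem_of_mem_erase (hs w (Finset.mem_erase.2 ⟨h, hw⟩)).1
    · intro b hab
      simp only
      by_cases hwu : w = u
      · rw [if_pos hwu]
        subst hwu
        have hx : t' w b ≠ l := hM' w hw l hlu b hab
        rw [if_neg hx]
        exact Finset.ne_of_mem_erase (ht₂.mem w b ⟨hab, hx⟩)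
      · rw [if_neg hwu]
        have hsw := hs w (Finset.mem_erase.2 ⟨hwu, hw⟩)
        by_cases hx : t' w b = l
        · rw [if_pos hx]
          exact (Finset.ne_of_mem_erase hsw.1).symm
        · rw [if_neg hx]
          exact hsw.2 b ⟨hab, hx⟩

/-- the edges inside a set of vertices -/
def inside (G : SimpleGraph V) (W : Finset V) : SimpleGraph V where
  Adj a b := G.Adj a b ∧ a ∈ W ∧ b ∈ W
  symm := ⟨fun _ _ h => ⟨h.1.symm, h.2.2, h.2.1⟩⟩
  loopless := ⟨fun a h => G.loopless.irrefl a h.1⟩

theorem vizing_aux (G : SimpleGraph V) (Δ : ℕ) (hG : ∀ v, (nb G v).card ≤ Δ) (W : Finset V) :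
    ∃ t : V → V → ℕ, Col (range (Δ + 1)) (inside G W) t := by
  induction W using Finset.induction_on with
  | empty =>
    exact ⟨fun _ _ => 0, fun _ _ => rfl, fun a b h => absurd h.2.1 (Finset.notMem_empty a),
      fun a b b' h _ _ => absurd h.2.1 (Finset.notMem_empty a)⟩
  | insert v W hv ih =>
    obtain ⟨t, ht⟩ := ih
    set S := nb G v ∩ W with hS
    set M : V → Finset ℕ := fun u =>
      (range (Δ + 1)).filter (fun l => Miss (inside G W) t u l) with hM
    have hScard : S.card ≤ Δ := (Finset.card_le_card Finset.inter_subset_left).trans (hG v)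
    have hMcard : ∀ u ∈ S, 2 ≤ (M u).card := by
      intro u hu
      have huv : G.Adj u v := (mem_filter.1 (Finset.mem_inter.1 hu).1).2.symm
      -- used colours
      have h1 : (range (Δ + 1)) \ (M u) ⊆ ((nb G u).erase v).image (t u) := by
        intro l hl
        rw [Finset.mem_sdiff] at hl
        have h3 : ¬ Miss (inside G W) t u l := fun h => hl.2 (mem_filter.2 ⟨hl.1, h⟩)
        unfold Miss at h3
        push Not at h3
        obtain ⟨b, hb, hbl⟩ := h3
        refine mem_image.2 ⟨b, Finset.mem_erase.2 ⟨?_, mem_filter.2 ⟨mem_univ _, hb.1⟩⟩, hbl⟩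
        rintro rfl
        exact hv hb.2.2
      have h2 := (Finset.card_le_card h1).trans Finset.card_image_le
      have hvu : v ∈ nb G u := mem_filter.2 ⟨mem_univ _, huv⟩
      rw [Finset.card_erase_of_mem hvu, Finset.card_sdiff_of_subset (Finset.filter_subset _ _),
        Finset.card_range] at h2
      have h4 := hG u
      have h5 : (M u).card ≤ Δ + 1 := by
        have := Finset.card_le_card (Finset.filter_subset (fun l => Miss (inside G W) t u l)
          (range (Δ + 1)))
        rwa [Finset.card_range] at this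
      have h6 := Finset.card_pos.2 ⟨v, hvu⟩
      have h7 : (M u).card =
          ((range (Δ + 1)).filter (fun l => Miss (inside G W) t u l)).card := rfl
      omega
    obtain ⟨t', s, ht', hsinj, hs⟩ := main (Δ + 1) (range (Δ + 1)) (Finset.card_range _)
      (inside G W) t S M v ht (by omega) (fun u _ => Finset.filter_subset _ _)
      (fun u _ l hl => (mem_filter.1 hl).2) (fun u hu => by have := hMcard u hu; omega)
      (fun u hu _ => hMcard u hu)
    have hSmem : ∀ b, (inside G (insert v W)).Adj v b → b ∈ S := by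
      intro b hb
      refine Finset.mem_inter.2 ⟨mem_filter.2 ⟨mem_univ _, hb.1⟩, ?_⟩
      rcases Finset.mem_insert.1 hb.2.2 with h | h
      · subst h
        exact absurd hb.1 (G.loopless.irrefl _)
      · exact h
    have hold : ∀ a b, a ≠ v → b ≠ v → (inside G (insert v W)).Adj a b →
        (inside G W).Adj a b := fun a b ha hb h =>
      ⟨h.1, (Finset.mem_insert.1 h.2.1).resolve_left ha, (Finset.mem_insert.1 h.2.2).resolve_left hb⟩
    refine ⟨fun a b => if a = v then s b else if b = v then s a else t' a b, fun a b => ?_,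
      fun a b hab => ?_, fun a b b' hb hb' e => ?_⟩
    · by_cases ha : a = v
      · by_cases hb : b = v
        · rw [ha, hb]
        · rw [if_pos ha, if_neg hb, if_pos ha]
      · by_cases hb : b = v
        · rw [if_neg ha, if_pos hb, if_pos hb]
        · rw [if_neg ha, if_neg hb, if_neg hb, if_neg ha, ht'.symm a b]
    · by_cases ha : a = v
      · rw [if_pos ha]
        subst ha
        exact (hs b (hSmem b hab)).1
      · rw [if_neg ha]
        by_cases hb : b = v
        · rw [if_pos hb]
          subst hb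
          exact (hs a (hSmem a hab.symm)).1
        · rw [if_neg hb]
          exact ht'.mem a b (hold a b ha hb hab)
    · by_cases ha : a = v
      · rw [if_pos ha, if_pos ha] at e
        subst ha
        exact hsinj (Finset.mem_coe.2 (hSmem b hb)) (Finset.mem_coe.2 (hSmem b' hb')) e
      · rw [if_neg ha, if_neg ha] at e
        by_cases hbv : b = v
        · by_cases hbv' : b' = v
          · rw [hbv, hbv']
          · rw [if_pos hbv, if_neg hbv'] at e
            subst hbv
            exact absurd e.symm ((hs a (hSmem a hb.symm)).2 b' (hold a b' ha hbv' hb'))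
        · by_cases hbv' : b' = v
          · rw [if_neg hbv, if_pos hbv'] at e
            subst hbv'
            exact absurd e ((hs a (hSmem a hb'.symm)).2 b (hold a b ha hbv hb))
          · rw [if_neg hbv, if_neg hbv'] at e
            exact ht'.inj a b b' (hold a b ha hbv hb) (hold a b' ha hbv' hb') e

end Pool.Agent.Work.MP_db9399_all.VIZ

namespace Pool.Agent.Work.MP_db9399_all

open Finset Classical

universe u

theorem stmt_VIZ : Stmt_VIZ.{u} := by
  intro V _ G Δ hG
  obtain ⟨t, ht⟩ := VIZ.vizing_aux G Δ hG univ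
  refine ⟨fun v w => if G.Adj v w then t v w else 0, fun v w => ?_, fun v w => ?_, fun v => ?_⟩
  · simp only
    by_cases h : G.Adj v w
    · rw [if_pos h, if_pos h.symm, ht.symm]
    · rw [if_neg h, if_neg (fun h' => h h'.symm)]
  · simp only
    split_ifs with h
    · exact Finset.mem_range.1 (ht.mem v w ⟨h, mem_univ _, mem_univ _⟩)
    · omega
  · intro b hb b' hb' e
    have h1 : G.Adj v b := (mem_filter.1 hb).2
    have h2 : G.Adj v b' := (mem_filter.1 hb').2
    simp only at e
    rw [if_pos h1, if_pos h2] at e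
    exact ht.inj v b b' ⟨h1, mem_univ _, mem_univ _⟩ ⟨h2, mem_univ _, mem_univ _⟩ e

end Pool.Agent.Work.MP_db9399_all
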